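import Pool.Agent.Helper75.CG.Defs2

/-!
# Project CH, module C: the cost of small sets
-/

set_option autoImplicit false

namespace Pool.Agent.Helper75.CG

open scoped Classical
open Finset
open Pool.Agent.Helper65.CliqueGame

namespace Setup

variable {V Δ : Type} [Fintype V] [Fintype Δ] (X : Setup V Δ)

theorem h87_part_le {S : Finset V} (hS : S ∈ X.SS0) (δ : Δ) :
    (X.part S δ).card ≤ X.bs (X.gen δ) := by
  unfold SS0 at hS
  obtain ⟨_, A, hA, hSA⟩ := (Finset.mem_filter.1 hS).2
  have h1 : X.part S δ ⊆ X.part A δ := Finset.filter_subset_filter _ hSA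
  have h2 := Finset.card_le_card h1
  rcases hA.1 δ with h | h <;> omega

theorem h87_NN_pos (j : ℕ) : 0 < X.NN j ∨ X.R < j := by
  rcases lt_trichotomy j X.R with h | h | h
  · left
    unfold NN bs
    rw [if_pos h]
    exact Nat.choose_pos (X.hz j h)
  · left
    unfold NN bs
    rw [if_neg (by omega)]
    exact Nat.choose_pos (Nat.one_le_two_pow)
  · right
    exact h

theorem h87_mem_part {S : Finset V} {δ : Δ} {x : V} :
    x ∈ X.part S δ ↔ x ∈ S ∧ X.dis x = δ := by
  simp [part]

/-- One term of `pc`. -/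
noncomputable def h87_f (j : ℕ) (T : Finset V) (δ : Δ) : ℕ :=
  X.y (X.gen δ) + if X.gen δ < j then 0 else X.z (X.gen δ) * (X.part T δ).card

theorem h87_f_mono (j : ℕ) {S T : Finset V} (h : S ⊆ T) (δ : Δ) :
    X.h87_f j S δ ≤ X.h87_f j T δ := by
  unfold h87_f
  split_ifs
  · exact le_rfl
  · have h1 : X.part S δ ⊆ X.part T δ := Finset.filter_subset_filter _ h
    have h2 := Finset.card_le_card h1
    have h3 := Nat.mul_le_mul_left (X.z (X.gen δ)) h2
    omega

theorem pc_lt {zm : ℕ} (hz : ∀ j < X.R, zm ≤ X.z j) (hy : ∀ j ≤ X.R, zm ≤ X.y j) {j : ℕ}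
    {S T : Finset V} (hT : T ∈ X.SS0)
    (hS' : ∀ δ, X.gen δ < j → (X.part S δ).card = 0 ∨ (X.part S δ).card = X.bs (X.gen δ))
    (hT' : ∀ δ, X.gen δ < j → (X.part T δ).card = 0 ∨ (X.part T δ).card = X.bs (X.gen δ))
    (h : S ⊂ T) : X.pc j S + zm ≤ X.pc j T := by
  obtain ⟨hST, x, hxT, hxS⟩ := Finset.ssubset_iff_exists_cons_subset.1 h |>.elim
    (fun x hx => by
      obtain ⟨hx1, hx2⟩ := hx
      exact (⟨h.1, x, hx2 (Finset.mem_cons_self x S), hx1⟩ :
        S ⊆ T ∧ ∃ x, x ∈ T ∧ x ∉ S))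
  set d := X.dis x with hd
  have himg : S.image X.dis ⊆ T.image X.dis := Finset.image_subset_image hST
  have hpS : X.pc j S = ∑ δ ∈ S.image X.dis, X.h87_f j S δ := rfl
  have hpT : X.pc j T = ∑ δ ∈ T.image X.dis, X.h87_f j T δ := rfl
  have hdT : d ∈ T.image X.dis := Finset.mem_image_of_mem _ hxT
  rw [hpS, hpT]
  by_cases hdS : d ∈ S.image X.dis
  · -- the district is already touched
    obtain ⟨s, hs, hsd⟩ := Finset.mem_image.1 hdS
    have hsp : s ∈ X.part S d := X.h87_mem_part.2 ⟨hs, hsd⟩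
    have hsub : X.part S d ⊆ X.part T d := Finset.filter_subset_filter _ hST
    have hxp : x ∈ X.part T d := X.h87_mem_part.2 ⟨hxT, rfl⟩
    have hxn : x ∉ X.part S d := fun hx => hxS (X.h87_mem_part.1 hx).1
    have hlt : (X.part S d).card < (X.part T d).card :=
      Finset.card_lt_card ⟨hsub, fun hh => hxn (hh hxp)⟩
    have hpos : 0 < (X.part S d).card := Finset.card_pos.2 ⟨s, hsp⟩
    have hge : ¬ X.gen d < j := by
      intro hlt'
      have h1 := hS' d hlt'
      have h2 := hT' d hlt'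
      omega
    have hb := X.h87_part_le hT d
    have hR : X.gen d < X.R := by
      by_contra hR
      have h1 : X.bs (X.gen d) = 1 := by
        unfold bs
        rw [if_neg hR]
      omega
    have hzz := hz _ hR
    have hfd : X.h87_f j S d + zm ≤ X.h87_f j T d := by
      unfold h87_f
      rw [if_neg hge, if_neg hge]
      have h3 : X.z (X.gen d) * ((X.part S d).card + 1) ≤ X.z (X.gen d) * (X.part T d).card :=
        Nat.mul_le_mul_left _ hlt
      have h4 : X.z (X.gen d) * ((X.part S d).card + 1) =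
        X.z (X.gen d) * (X.part S d).card + X.z (X.gen d) := by ring
      omega
    rw [← Finset.add_sum_erase _ _ hdS, ← Finset.add_sum_erase _ _ hdT]
    have h5 : ∑ δ ∈ (S.image X.dis).erase d, X.h87_f j S δ ≤
        ∑ δ ∈ (T.image X.dis).erase d, X.h87_f j T δ :=
      (Finset.sum_le_sum fun δ _ => X.h87_f_mono j hST δ).trans
        (Finset.sum_le_sum_of_subset (Finset.erase_subset_erase d himg))
    omega
  · -- a new district
    have h1 : zm ≤ X.h87_f j T d := by
      unfold h87_f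
      have := hy _ (X.gen_le d)
      omega
    rw [← Finset.add_sum_erase _ _ hdT]
    have h2 : S.image X.dis ⊆ (T.image X.dis).erase d := by
      intro δ hδ
      refine Finset.mem_erase.2 ⟨?_, himg hδ⟩
      rintro rfl
      exact hdS hδ
    have h3 : ∑ δ ∈ S.image X.dis, X.h87_f j S δ ≤
        ∑ δ ∈ (T.image X.dis).erase d, X.h87_f j T δ :=
      (Finset.sum_le_sum fun δ _ => X.h87_f_mono j hST δ).trans (Finset.sum_le_sum_of_subset h2)
    omega

theorem pc_inner {x y : V} (hxy : x ≠ y) (h : X.dis x = X.dis y) :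
    X.pc 0 {x, y} = X.y (X.gv x) + 2 * X.z (X.gv x) := by
  have h1 : ({x, y} : Finset V).image X.dis = {X.dis x} := by
    rw [Finset.image_insert, Finset.image_singleton, ← h]
    simp
  have h2 : X.part {x, y} (X.dis x) = {x, y} := by
    ext a
    rw [h87_mem_part]
    constructor
    · exact fun ha => ha.1
    · intro ha
      refine ⟨ha, ?_⟩
      rcases Finset.mem_insert.1 ha with rfl | ha
      · rfl
      · rw [Finset.mem_singleton.1 ha, h]
  unfold pc
  rw [h1, Finset.sum_singleton, h2, Finset.card_pair hxy, if_neg (Nat.not_lt_zero _)]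
  unfold gv
  ring

theorem pc_cross {j : ℕ} {x y : V} (h : X.dis x ≠ X.dis y) (hx : j ≤ X.gv x) (hy : j ≤ X.gv y) :
    X.pc j {x, y} = (X.y (X.gv x) + X.z (X.gv x)) + (X.y (X.gv y) + X.z (X.gv y)) := by
  have h1 : ({x, y} : Finset V).image X.dis = {X.dis x, X.dis y} := by
    rw [Finset.image_insert, Finset.image_singleton]
  have h2 : X.part {x, y} (X.dis x) = {x} := by
    ext a
    rw [h87_mem_part]
    constructor
    · rintro ⟨ha, hb⟩
      rcases Finset.mem_insert.1 ha with rfl | ha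
      · exact Finset.mem_singleton_self _
      · rw [Finset.mem_singleton.1 ha] at hb
        exact absurd hb.symm h
    · intro ha
      rw [Finset.mem_singleton.1 ha]
      exact ⟨Finset.mem_insert_self _ _, rfl⟩
  have h3 : X.part {x, y} (X.dis y) = {y} := by
    ext a
    rw [h87_mem_part]
    constructor
    · rintro ⟨ha, hb⟩
      rcases Finset.mem_insert.1 ha with rfl | ha
      · exact absurd hb h
      · exact ha
    · intro ha
      rw [Finset.mem_singleton.1 ha]
      exact ⟨Finset.mem_insert_of_mem (Finset.mem_singleton_self _), rfl⟩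
  unfold pc
  rw [h1, Finset.sum_pair h, h2, h3, Finset.card_singleton, Finset.card_singleton]
  unfold gv at hx hy ⊢
  rw [if_neg (not_lt.2 hx), if_neg (not_lt.2 hy)]
  ring

theorem h87_image {δ : Δ} {Y : Finset V} (hY : Y ⊆ X.dset δ) (hne : Y.Nonempty) :
    Y.image X.dis = {δ} := by
  have h1 : ∀ y ∈ Y, X.dis y = δ := fun y hy => (Finset.mem_filter.1 (hY hy)).2
  ext a
  rw [Finset.mem_image, Finset.mem_singleton]
  constructor
  · rintro ⟨y, hy, rfl⟩
    exact h1 y hy
  · rintro rfl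
    obtain ⟨y, hy⟩ := hne
    exact ⟨y, hy, h1 y hy⟩

theorem pc_star {j : ℕ} {v : V} {δ : Δ} {Y : Finset V} (hδ : X.gen δ = j) (hv : j < X.gv v)
    (hY : Y ⊆ X.dset δ) (hne : Y.Nonempty) :
    X.pc (j + 1) (insert v Y) = X.y j + (X.y (X.gv v) + X.z (X.gv v)) := by
  have hd : ∀ y ∈ Y, X.dis y = δ := fun y hy => (Finset.mem_filter.1 (hY hy)).2
  have hne' : X.dis v ≠ δ := by
    intro h
    unfold gv at hv
    rw [h, hδ] at hv
    exact lt_irrefl _ hv
  have h1 : (insert v Y).image X.dis = {X.dis v, δ} := by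
    rw [Finset.image_insert, X.h87_image hY hne]
  have h2 : X.part (insert v Y) (X.dis v) = {v} := by
    ext a
    rw [h87_mem_part]
    constructor
    · rintro ⟨ha, hb⟩
      rcases Finset.mem_insert.1 ha with rfl | ha
      · exact Finset.mem_singleton_self _
      · rw [hd a ha] at hb
        exact absurd hb.symm hne'
    · intro ha
      rw [Finset.mem_singleton.1 ha]
      exact ⟨Finset.mem_insert_self _ _, rfl⟩
  unfold pc
  rw [h1, Finset.sum_pair hne', h2, Finset.card_singleton, if_pos (by omega : X.gen δ < j + 1),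
    if_neg (by unfold gv at hv; omega : ¬ X.gen (X.dis v) < j + 1), hδ]
  unfold gv
  ring

theorem pc_block {j : ℕ} {δ : Δ} {Y : Finset V} (hδ : X.gen δ = j)
    (hY : Y ⊆ X.dset δ) (hne : Y.Nonempty) : X.pc (j + 1) Y = X.y j := by
  unfold pc
  rw [X.h87_image hY hne, Finset.sum_singleton, if_pos (by omega : X.gen δ < j + 1), hδ, add_zero]

/-- final capacities of small sets -/
theorem cap_bound {G : Finset V → ℝ} {ν E : ℝ} {zm D : ℕ} (hX : X.Sz G ν E zm D) {c : ℝ}
    (hc : 0 < c) {j : ℕ} (hj : j ≤ X.R) {T : Finset V} (hT : T ∈ X.SS0)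
    (hF : ∀ δ, X.gen δ < j → (X.part T δ).card = 0 ∨ (X.part T δ).card = X.bs (X.gen δ))
    (hTc : T.card ≤ 2 * X.m + 2) {w : ℝ}
    (hw : ∏ i ∈ Ico j X.R, (X.NN i : ℝ) ^ (X.ff i T) ≤ w) :
    c * G T / w ≤ c * E * (1 / 2) ^ (X.pc j T) := by
  have h1 := hX.bd j hj T hT hF hTc
  have h2 : 0 < ∏ i ∈ Ico j X.R, (X.NN i : ℝ) ^ (X.ff i T) := by
    refine Finset.prod_pos fun i hi => pow_pos ?_ _
    rcases X.h87_NN_pos i with h | h
    · exact_mod_cast h
    · have := (Finset.mem_Ico.1 hi).2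
      omega
  have h3 : 0 < w := lt_of_lt_of_le h2 hw
  have h4 : G T * 2 ^ (X.pc j T) ≤ E * w :=
    h1.trans (mul_le_mul_of_nonneg_left hw (by linarith [hX.E1]))
  have h5 : (0 : ℝ) < 2 ^ (X.pc j T) := by positivity
  rw [one_div, inv_pow, div_le_iff₀ h3, mul_assoc, mul_assoc]
  refine mul_le_mul_of_nonneg_left ?_ hc.le
  have h6 : G T ≤ E * w / 2 ^ (X.pc j T) := by
    rw [le_div_iff₀ h5]
    exact h4
  calc G T ≤ E * w / 2 ^ (X.pc j T) := h6
    _ = E * ((2 ^ (X.pc j T))⁻¹ * w) := by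
        rw [div_eq_mul_inv]
        ring

end Setup

end Pool.Agent.Helper75.CG
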