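import Pool.Agent.Helper87.CH.Cost

/-!
# Project CH, module K: small sets
-/

set_option autoImplicit false

namespace Pool.Agent.Helper75.CG

open scoped Classical
open Finset
open Pool.Agent.Helper65.CliqueGame

theorem h87_pow_le_choose {n r : ℕ} (h : r ≤ n) : n ^ r ≤ r ^ r * n.choose r := by
  have h1 : n ^ r * r.factorial ≤ (r ^ r * n.choose r) * r.factorial := by
    have h2 : n ^ r * r.factorial = ∏ i ∈ range r, n * (r - i) := by
      rw [Finset.prod_mul_distrib, Finset.prod_const, Finset.card_range,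
        ← Nat.descFactorial_eq_prod_range, Nat.descFactorial_self]
    have h3 : (r ^ r * n.choose r) * r.factorial = ∏ i ∈ range r, r * (n - i) := by
      rw [Finset.prod_mul_distrib, Finset.prod_const, Finset.card_range,
        ← Nat.descFactorial_eq_prod_range, Nat.descFactorial_eq_factorial_mul_choose]
      ring
    rw [h2, h3]
    refine Finset.prod_le_prod' fun i hi => ?_
    have hi' : i < r := Finset.mem_range.1 hi
    obtain ⟨a, rfl⟩ : ∃ a, r = i + a := ⟨r - i, by omega⟩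
    obtain ⟨b, rfl⟩ : ∃ b, n = i + b := ⟨n - i, by omega⟩
    rw [Nat.add_sub_cancel_left, Nat.add_sub_cancel_left]
    nlinarith [Nat.zero_le i, (by omega : a ≤ b)]
  exact Nat.le_of_mul_le_mul_right h1 (Nat.factorial_pos r)

namespace Setup

variable {V Δ : Type} [Fintype V] [Fintype Δ] (X : Setup V Δ)

theorem h87_NN_lower {j : ℕ} (hj : j < X.R) :
    (X.m : ℝ) * X.z j ≤ X.m * Real.logb 2 X.m + Real.logb 2 (X.NN j) := by
  have hm : 0 < X.m := by have := X.hm; omega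
  have hN : X.NN j = (2 ^ X.z j).choose X.m := by
    unfold NN bs
    rw [if_pos hj]
  have hpos : 0 < X.NN j := by
    rw [hN]
    exact Nat.choose_pos (X.hz j hj)
  have h1 : ((2 ^ X.z j) ^ X.m : ℕ) ≤ X.m ^ X.m * X.NN j := by
    rw [hN]
    exact h87_pow_le_choose (X.hz j hj)
  have h2 : ((2 : ℝ) ^ X.z j) ^ X.m ≤ (X.m : ℝ) ^ X.m * X.NN j := by exact_mod_cast h1
  have hmr : (0 : ℝ) < X.m := by exact_mod_cast hm
  have hNr : (0 : ℝ) < X.NN j := by exact_mod_cast hpos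
  have h3 := Real.logb_le_logb_of_le (b := 2) (by norm_num) (by positivity) h2
  rw [Real.logb_mul (by positivity) (by positivity), Real.logb_pow, Real.logb_pow, Real.logb_pow,
    Real.logb_self_eq_one (by norm_num), mul_one] at h3
  exact h3

theorem h87_card (S : Finset V) :
    (S.card : ℝ) = ∑ δ ∈ S.image X.dis, ((X.part S δ).card : ℝ) := by
  have h := Finset.card_eq_sum_card_image X.dis S
  exact_mod_cast h

theorem h87_part_pos {S : Finset V} {δ : Δ} (h : δ ∈ S.image X.dis) : 1 ≤ (X.part S δ).card := by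
  obtain ⟨x, hx, hd⟩ := Finset.mem_image.1 h
  exact Finset.card_pos.2 ⟨x, X.h87_mem_part.2 ⟨hx, hd⟩⟩

theorem h87_pc_cast (j : ℕ) (T : Finset V) : (X.pc j T : ℝ) = ∑ δ ∈ T.image X.dis,
    ((X.y (X.gen δ) : ℝ) +
      if X.gen δ < j then 0 else (X.z (X.gen δ) : ℝ) * (X.part T δ).card) := by
  unfold pc
  push_cast
  rfl

theorem h87_logNN_nonneg {j : ℕ} (hj : j < X.R) : 0 ≤ Real.logb 2 (X.NN j) := by
  rcases X.h87_NN_pos j with h | h
  · exact Real.logb_nonneg (by norm_num) (by exact_mod_cast h)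
  · omega

theorem h87_sum_ff (j : ℕ) (T : Finset V) :
    ∑ δ ∈ T.image X.dis, (if j ≤ X.gen δ ∧ X.gen δ < X.R ∧
      (X.part T δ).card = X.bs (X.gen δ) then Real.logb 2 (X.NN (X.gen δ)) else 0) ≤
      ∑ i ∈ Ico j X.R, (X.ff i T : ℝ) * Real.logb 2 (X.NN i) := by
  have h1 : ∀ i ∈ Ico j X.R, (X.ff i T : ℝ) * Real.logb 2 (X.NN i) =
      ∑ δ : Δ, if i = X.gen δ then
        (if (X.part T δ).card = X.bs (X.gen δ) then Real.logb 2 (X.NN (X.gen δ)) else 0)
        else 0 := by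
    intro i _
    unfold ff
    rw [← Finset.sum_filter, ← Finset.sum_filter, Finset.filter_filter]
    have h2 : univ.filter (fun δ => i = X.gen δ ∧ (X.part T δ).card = X.bs (X.gen δ)) =
        univ.filter (fun δ => X.gen δ = i ∧ (X.part T δ).card = X.bs i) := by
      ext δ
      simp only [Finset.mem_filter, Finset.mem_univ, true_and]
      constructor
      · rintro ⟨h, h'⟩
        exact ⟨h.symm, by rw [h]; exact h'⟩
      · rintro ⟨h, h'⟩
        exact ⟨h.symm, by rw [h]; exact h'⟩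
    rw [h2]
    have h3 : ∀ δ ∈ univ.filter (fun δ => X.gen δ = i ∧ (X.part T δ).card = X.bs i),
        Real.logb 2 (X.NN (X.gen δ)) = Real.logb 2 (X.NN i) := by
      intro δ hδ
      rw [(Finset.mem_filter.1 hδ).2.1]
    rw [Finset.sum_congr rfl h3, Finset.sum_const, nsmul_eq_mul]
  rw [Finset.sum_congr rfl h1, Finset.sum_comm]
  have h4 : ∀ δ : Δ, (if j ≤ X.gen δ ∧ X.gen δ < X.R ∧
      (X.part T δ).card = X.bs (X.gen δ) then Real.logb 2 (X.NN (X.gen δ)) else 0) =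
      ∑ i ∈ Ico j X.R, if i = X.gen δ then
        (if (X.part T δ).card = X.bs (X.gen δ) then Real.logb 2 (X.NN (X.gen δ)) else 0)
        else 0 := by
    intro δ
    rw [Finset.sum_ite_eq']
    by_cases h : X.gen δ ∈ Ico j X.R
    · rw [if_pos h]
      have h' := Finset.mem_Ico.1 h
      by_cases h2 : (X.part T δ).card = X.bs (X.gen δ)
      · rw [if_pos ⟨h'.1, h'.2, h2⟩, if_pos h2]
      · rw [if_neg fun hh => h2 hh.2.2, if_neg h2]
    · rw [if_neg h, if_neg]
      rintro ⟨ha, hb, _⟩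
      exact h (Finset.mem_Ico.2 ⟨ha, hb⟩)
  rw [Finset.sum_congr rfl fun δ _ => h4 δ]
  refine Finset.sum_le_sum_of_subset_of_nonneg (Finset.subset_univ _) fun δ _ _ => ?_
  rw [← h4]
  split_ifs with h
  · exact X.h87_logNN_nonneg h.2.1
  · exact le_rfl

theorem h87_pc_cost {j : ℕ} {T : Finset V} (hT : T ∈ X.SS0)
    (hF : ∀ δ, X.gen δ < j → (X.part T δ).card = 0 ∨ (X.part T δ).card = X.bs (X.gen δ)) :
    (X.pc j T : ℝ) ≤ X.cost T + (∑ i ∈ Ico j X.R, (X.ff i T : ℝ) * Real.logb 2 (X.NN i)) +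
      T.card * Real.logb 2 X.m := by
  have hm : 1 ≤ X.m := by have := X.hm; omega
  have hlm : 0 ≤ Real.logb 2 X.m := Real.logb_nonneg (by norm_num) (by exact_mod_cast hm)
  refine le_trans ?_ (add_le_add_left (add_le_add_right (X.h87_sum_ff j T) _) _)
  rw [X.h87_pc_cast, X.h87_card T, cost, Finset.sum_mul, ← Finset.sum_add_distrib,
    ← Finset.sum_add_distrib]
  refine Finset.sum_le_sum fun δ hδ => ?_
  have hp := X.h87_part_pos hδ
  have hb := X.h87_part_le hT δ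
  have hg := X.gen_le δ
  have hpr : (0 : ℝ) ≤ (X.part T δ).card * Real.logb 2 X.m :=
    mul_nonneg (Nat.cast_nonneg _) hlm
  have hL : (0 : ℝ) ≤ if j ≤ X.gen δ ∧ X.gen δ < X.R ∧
      (X.part T δ).card = X.bs (X.gen δ) then Real.logb 2 (X.NN (X.gen δ)) else 0 := by
    split_ifs with h
    · exact X.h87_logNN_nonneg h.2.1
    · exact le_rfl
  have hz0 : (0 : ℝ) ≤ (X.z (X.gen δ) : ℝ) * (X.part T δ).card := by positivity
  by_cases h1 : X.gen δ < j
  · rw [if_pos h1]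
    have h2 : (0 : ℝ) ≤ if (X.part T δ).card < X.bs (X.gen δ) then
        (X.z (X.gen δ) : ℝ) * (X.part T δ).card else 0 := by
      split_ifs
      · exact hz0
      · exact le_rfl
    linarith
  · rw [if_neg h1]
    by_cases h2 : (X.part T δ).card < X.bs (X.gen δ)
    · rw [if_pos h2]
      linarith
    · rw [if_neg h2]
      have h3 : (X.part T δ).card = X.bs (X.gen δ) := by omega
      by_cases h4 : X.gen δ < X.R
      · rw [if_pos ⟨not_lt.1 h1, h4, h3⟩]
        have h5 := X.h87_NN_lower h4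
        have h6 : X.bs (X.gen δ) = X.m := by
          unfold bs
          rw [if_pos h4]
        rw [h3, h6]
        linarith
      · have h5 : X.gen δ = X.R := by omega
        have h6 : X.z (X.gen δ) = 0 := by rw [h5, X.zR]
        rw [h6] at *
        have h7 : ((0 : ℕ) : ℝ) * (X.part T δ).card = 0 := by simp
        rw [h7]
        linarith

theorem h87_pc_Tm {Tm : ℝ} (hT : ∀ i ≤ X.R, (2 * (X.m : ℝ) + 2) * (X.y i + X.z i) ≤ Tm)
    (j : ℕ) {T : Finset V} (hTc : T.card ≤ 2 * X.m + 2) : (X.pc j T : ℝ) ≤ Tm := by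
  have hm0 : (0 : ℝ) < 2 * (X.m : ℝ) + 2 := by positivity
  have hTm0 : 0 ≤ Tm := by
    have h1 := hT 0 (Nat.zero_le _)
    have h2 : (0 : ℝ) ≤ (2 * (X.m : ℝ) + 2) * (X.y 0 + X.z 0) := by positivity
    linarith
  have h1 : (X.pc j T : ℝ) ≤ ∑ δ ∈ T.image X.dis,
      ((X.part T δ).card : ℝ) * (Tm / (2 * (X.m : ℝ) + 2)) := by
    rw [h87_pc_cast]
    refine Finset.sum_le_sum fun δ hδ => ?_
    have hp : (1 : ℝ) ≤ (X.part T δ).card := by exact_mod_cast X.h87_part_pos hδ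
    have h2 : ((X.y (X.gen δ) : ℝ) + X.z (X.gen δ)) ≤ Tm / (2 * (X.m : ℝ) + 2) := by
      rw [le_div_iff₀ hm0, mul_comm]
      exact hT _ (X.gen_le δ)
    have hy : (0 : ℝ) ≤ X.y (X.gen δ) := Nat.cast_nonneg _
    have hz : (0 : ℝ) ≤ X.z (X.gen δ) := Nat.cast_nonneg _
    calc (X.y (X.gen δ) : ℝ) +
        (if X.gen δ < j then 0 else (X.z (X.gen δ) : ℝ) * (X.part T δ).card)
        ≤ (X.part T δ).card * ((X.y (X.gen δ) : ℝ) + X.z (X.gen δ)) := by
          split_ifs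
          · nlinarith
          · nlinarith
      _ ≤ _ := mul_le_mul_of_nonneg_left h2 (by linarith)
  refine h1.trans ?_
  rw [← Finset.sum_mul, ← X.h87_card]
  have h3 : (T.card : ℝ) ≤ 2 * (X.m : ℝ) + 2 := by exact_mod_cast hTc
  calc (T.card : ℝ) * (Tm / (2 * (X.m : ℝ) + 2)) ≤
      (2 * (X.m : ℝ) + 2) * (Tm / (2 * (X.m : ℝ) + 2)) :=
        mul_le_mul_of_nonneg_right h3 (div_nonneg hTm0 hm0.le)
    _ = Tm := by field_simp

theorem GG_bd {g Γ Tm : ℝ} (hg : 0 ≤ g) (hΓ : 0 ≤ Γ)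
    (hT : ∀ i ≤ X.R, (2 * (X.m : ℝ) + 2) * (X.y i + X.z i) ≤ Tm) :
    ∀ j ≤ X.R, ∀ T ∈ X.SS0,
    (∀ δ, X.gen δ < j → (X.part T δ).card = 0 ∨ (X.part T δ).card = X.bs (X.gen δ)) →
    T.card ≤ 2 * X.m + 2 →
    X.GG g Γ Tm T * 2 ^ (X.pc j T) ≤ (2 : ℝ) ^ ((2 * (X.m : ℝ) + 2) * (2 * g + Real.logb 2 X.m)) *
      ∏ i ∈ Ico j X.R, (X.NN i : ℝ) ^ (X.ff i T) := by
  intro j hj T hTS hF hTc
  have hm : 1 ≤ X.m := by have := X.hm; omega
  have hlm : 0 ≤ Real.logb 2 X.m := Real.logb_nonneg (by norm_num) (by exact_mod_cast hm)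
  set L : ℝ := ∑ i ∈ Ico j X.R, (X.ff i T : ℝ) * Real.logb 2 (X.NN i) with hL
  have hL0 : 0 ≤ L := Finset.sum_nonneg fun i hi =>
    mul_nonneg (Nat.cast_nonneg _) (X.h87_logNN_nonneg (Finset.mem_Ico.1 hi).2)
  have hprod : ∏ i ∈ Ico j X.R, (X.NN i : ℝ) ^ (X.ff i T) = (2 : ℝ) ^ L := by
    rw [hL, Real.rpow_sum_of_pos (by norm_num : (0 : ℝ) < 2)]
    refine Finset.prod_congr rfl fun i hi => ?_
    have hN : (0 : ℝ) < X.NN i := by
      rcases X.h87_NN_pos i with h | h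
      · exact_mod_cast h
      · have := (Finset.mem_Ico.1 hi).2
        omega
    rw [mul_comm, Real.rpow_mul (by norm_num : (0 : ℝ) ≤ 2),
      Real.rpow_logb (by norm_num) (by norm_num) hN, Real.rpow_natCast]
  have h1 := X.h87_pc_cost hTS hF
  have h2 := X.h87_pc_Tm hT j hTc
  have hc : (T.card : ℝ) ≤ 2 * (X.m : ℝ) + 2 := by exact_mod_cast hTc
  have hc0 : (0 : ℝ) ≤ T.card := Nat.cast_nonneg _
  have h3 : (T.card : ℝ) * (2 * g + Real.logb 2 X.m) ≤
      (2 * (X.m : ℝ) + 2) * (2 * g + Real.logb 2 X.m) :=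
    mul_le_mul_of_nonneg_right hc (by linarith)
  have h4 : 0 ≤ (T.card : ℝ) * (2 * g + Real.logb 2 X.m) := mul_nonneg hc0 (by linarith)
  have hΓc : 0 ≤ Γ * T.card := mul_nonneg hΓ hc0
  have h5 : (X.pc j T : ℝ) - X.mu g Γ Tm T ≤
      (2 * (X.m : ℝ) + 2) * (2 * g + Real.logb 2 X.m) + L := by
    unfold mu
    rcases min_choice (X.cost T - (2 * g + Γ) * T.card) Tm with h | h
    · rw [h]
      nlinarith
    · rw [h]
      linarith
  rw [hprod, ← Real.rpow_add (by norm_num : (0 : ℝ) < 2)]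
  unfold GG
  rw [← Real.rpow_natCast, ← Real.rpow_add (by norm_num : (0 : ℝ) < 2)]
  refine Real.rpow_le_rpow_of_exponent_le (by norm_num) ?_
  linarith

end Setup

end Pool.Agent.Helper75.CG
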