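import Pool.Agent.Helper87.CH.ChainOf
import Pool.Agent.Helper61.CH.Step0
import Pool.Agent.Helper92.CH.StepE
import Pool.Agent.Helper81.CH.StepS
import Pool.Agent.Helper90.CH.StepT

/-!
# Project CH, module H: the chain of the phases
-/

set_option autoImplicit false

namespace Pool.Agent.Helper75.CG

open scoped Classical
open Finset
open Pool.Agent.Helper65.CliqueGame

namespace Setup

theorem chain (m R : ℕ) (hm : 1 ≤ m) : ∃ K : ℝ, 0 < K ∧ ∀ {V Δ : Type} [Fintype V] [Fintype Δ]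
    {n q : ℕ} (X : Setup V Δ) (_ : V ↪ Fin n) (G : Finset V → ℝ) (ν E : ℝ) (zm D : ℕ),
    X.m = m → X.R = R → X.Sz G ν E zm D → 0 < X.cnt ∅ →
    (∀ A, X.Adm A → ∑ S ∈ X.SS0.filter (fun S => S ⊆ A),
      (X.cnt S : ℝ) * X.w0 S / (X.cnt ∅ * G S) ≤ 1 / 4) →
    K * err ν E zm D ≤ 1 / 2 →
    q ≤ ∑ j ∈ range (X.R + 1), X.bs j * X.k j →
    MakerWins n m q true ∅ ∅ :=
  chain_of m R (step0 m R hm) (stepE m R hm) (stepEnd m R hm)
    (fun X _ emb _ _ _ _ _ hX _ hc _ hj _ _ _ _ hI => X.stepS emb hX hc hj hI) (stepT m R hm)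

end Setup

end Pool.Agent.Helper75.CG
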