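import Pool.Agent.Helper75.CG.Defs2
import Pool.Agent.Helper85.CliqueLB1

/-!
# Project CH, module H: the chain of the phases
-/

set_option autoImplicit false

namespace Pool.Agent.Helper75.CG

open scoped Classical
open Finset
open Pool.Agent.Helper65.CliqueGame

namespace Setup

section

variable {V Δ : Type} [Fintype V] [Fintype Δ] (X : Setup V Δ)

theorem h87_mass (S : Finset V) : mass X.phi0 S = X.cnt S := by
  unfold mass phi0 cnt
  rw [← Finset.sum_filter, Finset.filter_filter, Finset.sum_const, nsmul_eq_mul, mul_one]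
  congr 2
  ext A
  simp only [Finset.mem_filter, Finset.mem_univ, true_and]
  exact and_comm

theorem h87_PP {G : Finset V → ℝ}
    (hl : ∀ A, X.Adm A → ∑ S ∈ X.SS0.filter (fun S => S ⊆ A),
      (X.cnt S : ℝ) * X.w0 S / (X.cnt ∅ * G S) ≤ 1 / 4) :
    3 / 4 * (X.cnt ∅ : ℝ) ≤ PP X.SS0 X.phi0 (capOf (X.cnt ∅) G X.w0) := by
  unfold PP
  rw [h87_mass]
  have h1 : ∀ S ∈ X.SS0, mass X.phi0 S ^ 2 / capOf (X.cnt ∅ : ℝ) G X.w0 S =
      ∑ A ∈ univ.filter (fun A => X.Adm A ∧ S ⊆ A),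
        (X.cnt S : ℝ) * X.w0 S / (X.cnt ∅ * G S) := by
    intro S _
    rw [h87_mass, Finset.sum_const, nsmul_eq_mul]
    change _ = (X.cnt S : ℝ) * _
    unfold capOf
    rw [div_div_eq_mul_div]
    ring
  rw [Finset.sum_congr rfl h1]
  have h2 : ∑ S ∈ X.SS0, ∑ A ∈ univ.filter (fun A => X.Adm A ∧ S ⊆ A),
      (X.cnt S : ℝ) * X.w0 S / (X.cnt ∅ * G S) =
      ∑ A ∈ univ.filter (fun A => X.Adm A), ∑ S ∈ X.SS0.filter (fun S => S ⊆ A),
        (X.cnt S : ℝ) * X.w0 S / (X.cnt ∅ * G S) := by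
    refine Finset.sum_comm' ?_
    intro S A
    simp only [Finset.mem_filter, Finset.mem_univ, true_and]
    tauto
  rw [h2]
  have h3 : ∑ A ∈ univ.filter (fun A => X.Adm A), ∑ S ∈ X.SS0.filter (fun S => S ⊆ A),
      (X.cnt S : ℝ) * X.w0 S / (X.cnt ∅ * G S) ≤ ∑ A ∈ univ.filter (fun A => X.Adm A), (1 / 4 : ℝ) :=
    Finset.sum_le_sum fun A hA => hl A (Finset.mem_filter.1 hA).2
  rw [Finset.sum_const, nsmul_eq_mul] at h3
  have h4 : (univ.filter (fun A => X.Adm A)).card = X.cnt ∅ := by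
    unfold cnt
    congr 1
    ext A
    simp
  rw [h4] at h3
  linarith

end

theorem chain_of (m R : ℕ)
    (H0 : ∃ K : ℝ, 0 < K ∧ ∀ {V Δ : Type} [Fintype V] [Fintype Δ]
    {n q : ℕ} (X : Setup V Δ) (emb : V ↪ Fin n) (G : Finset V → ℝ) (ν E : ℝ) (zm D : ℕ)
    (c : ℝ), X.m = m → X.R = R → X.Sz G ν E zm D → 0 < c →
    (∀ (M B : Finset (Sym2 (Fin n))) (φ : Finset V → ℝ),
      X.Inv emb 0 (fun _ => ∅) (X.fpE 0) φ M B →
      PP X.SS0 X.phi0 (capOf c G X.w0) - K * c * err ν E zm D ≤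
        PP (X.SSt 0 (fun _ => ∅)) φ (capOf c G (X.wE 0)) →
      MakerWins n m q true M B) →
    MakerWins n m q true ∅ ∅)
    (HE : ∃ K : ℝ, 0 < K ∧ ∀ {V Δ : Type} [Fintype V] [Fintype Δ]
    {n q : ℕ} (X : Setup V Δ) (emb : V ↪ Fin n) (G : Finset V → ℝ) (ν E : ℝ) (zm D : ℕ)
    (c : ℝ) (j : ℕ) (Y : Δ → Finset V) (φ : Finset V → ℝ) (M B : Finset (Sym2 (Fin n))),
    X.m = m → X.R = R → X.Sz G ν E zm D → 0 < c → j < R → X.Inv emb j Y (X.fpE j) φ M B →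
    (∀ (M' B' : Finset (Sym2 (Fin n))) (φ' : Finset V → ℝ),
      X.Inv emb j Y (X.fpS j) φ' M' B' →
      PP (X.SSt j Y) φ (capOf c G (X.wE j)) - K * c * err ν E zm D ≤
        PP (X.SSt j Y) φ' (capOf c G (X.wS j)) →
      MakerWins n m q true M' B') →
    MakerWins n m q true M B)
    (HN : ∃ K : ℝ, 0 < K ∧ ∀ {V Δ : Type} [Fintype V]
    [Fintype Δ] {n q : ℕ} (X : Setup V Δ) (emb : V ↪ Fin n) (G : Finset V → ℝ) (ν E : ℝ)
    (zm D : ℕ) (c : ℝ) (Y : Δ → Finset V) (φ : Finset V → ℝ) (M B : Finset (Sym2 (Fin n))),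
    X.m = m → X.R = R → X.Sz G ν E zm D → 0 < c → X.Inv emb R Y (X.fpE R) φ M B →
    0 < PP (X.SSt R Y) φ (capOf c G (X.wE R)) - K * c * err ν E zm D →
    q ≤ ∑ j ∈ range (X.R + 1), X.bs j * X.k j →
    MakerWins n m q true M B)
    (HS : ∀ {V Δ : Type} [Fintype V] [Fintype Δ] (X : Setup V Δ) {n : ℕ} (emb : V ↪ Fin n) {G : Finset V → ℝ} {ν E : ℝ} {zm D : ℕ}
    (hX : X.Sz G ν E zm D) {c : ℝ} (hc : 0 < c) {j : ℕ} (hj : j < X.R) {Y : Δ → Finset V}
    {φ : Finset V → ℝ} {M B : Finset (Sym2 (Fin n))} (hI : X.Inv emb j Y (X.fpS j) φ M B),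
    ∃ (Y' : Δ → Finset V) (φ' : Finset V → ℝ), X.Inv emb (j + 1) Y' (X.fpS j) φ' M B ∧
      PP (X.SSt j Y) φ (capOf c G (X.wS j)) - c * err ν E zm D ≤
        PP (X.SSt (j + 1) Y') φ' (capOf c G (X.wT j)))
    (HT : ∃ K : ℝ, 0 < K ∧ ∀ {V Δ : Type} [Fintype V] [Fintype Δ]
    {n q : ℕ} (X : Setup V Δ) (emb : V ↪ Fin n) (G : Finset V → ℝ) (ν E : ℝ) (zm D : ℕ)
    (c : ℝ) (j : ℕ) (Y : Δ → Finset V) (φ : Finset V → ℝ) (M B : Finset (Sym2 (Fin n))),
    X.m = m → X.R = R → X.Sz G ν E zm D → 0 < c → j < R →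
    X.Inv emb (j + 1) Y (X.fpS j) φ M B →
    (∀ (M' B' : Finset (Sym2 (Fin n))) (φ' : Finset V → ℝ),
      X.Inv emb (j + 1) Y (X.fpE (j + 1)) φ' M' B' →
      PP (X.SSt (j + 1) Y) φ (capOf c G (X.wT j)) - K * c * err ν E zm D ≤
        PP (X.SSt (j + 1) Y) φ' (capOf c G (X.wE (j + 1))) →
      MakerWins n m q true M' B') →
    MakerWins n m q true M B) : ∃ K : ℝ, 0 < K ∧ ∀ {V Δ : Type} [Fintype V] [Fintype Δ]
    {n q : ℕ} (X : Setup V Δ) (_ : V ↪ Fin n) (G : Finset V → ℝ) (ν E : ℝ) (zm D : ℕ),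
    X.m = m → X.R = R → X.Sz G ν E zm D → 0 < X.cnt ∅ →
    (∀ A, X.Adm A → ∑ S ∈ X.SS0.filter (fun S => S ⊆ A),
      (X.cnt S : ℝ) * X.w0 S / (X.cnt ∅ * G S) ≤ 1 / 4) →
    K * err ν E zm D ≤ 1 / 2 →
    q ≤ ∑ j ∈ range (X.R + 1), X.bs j * X.k j →
    MakerWins n m q true ∅ ∅ := by
  obtain ⟨K0, hK0, H0⟩ := H0
  obtain ⟨KE, hKE, HE⟩ := HE
  obtain ⟨KN, hKN, HN⟩ := HN
  obtain ⟨KT, hKT, HT⟩ := HT
  refine ⟨K0 + R * (KE + 1 + KT) + KN, by positivity, ?_⟩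
  intro V Δ _ _ n q X emb G ν E zm D hXm hXR hSz hcnt hl herr hq
  have hc : (0 : ℝ) < (X.cnt ∅ : ℝ) := by exact_mod_cast hcnt
  set c : ℝ := (X.cnt ∅ : ℝ) with hcdef
  have herr0 : 0 ≤ err ν E zm D := by
    unfold err
    have h1 := hSz.nu0
    have h2 := hSz.E1
    positivity
  set e : ℝ := c * err ν E zm D with he
  have he0 : 0 ≤ e := mul_nonneg hc.le herr0
  have hKe : (K0 + R * (KE + 1 + KT) + KN) * e ≤ c / 2 := by
    have h1 := mul_le_mul_of_nonneg_left herr hc.le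
    rw [he]
    linarith
  have key : ∀ d : ℕ, ∀ j : ℕ, j + d = R → ∀ (Y : Δ → Finset V) (φ : Finset V → ℝ)
      (M B : Finset (Sym2 (Fin n))), X.Inv emb j Y (X.fpE j) φ M B →
      3 / 4 * c - (K0 + j * (KE + 1 + KT)) * e ≤ PP (X.SSt j Y) φ (capOf c G (X.wE j)) →
      MakerWins n m q true M B := by
    intro d
    induction d with
    | zero =>
      intro j hj Y φ M B hI hP
      have hjR : j = R := by omega
      subst hjR
      refine HN X emb G ν E zm D c Y φ M B hXm hXR hSz hc hI ?_ hq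
      have h1 : KN * c * err ν E zm D = KN * e := by rw [he]; ring
      rw [h1]
      have h2 : (K0 + j * (KE + 1 + KT) + KN) * e = (K0 + j * (KE + 1 + KT)) * e + KN * e := by
        ring
      linarith
    | succ d ih =>
      intro j hj Y φ M B hI hP
      have hjR : j < R := by omega
      have hjX : j < X.R := by omega
      refine HE X emb G ν E zm D c j Y φ M B hXm hXR hSz hc hjR hI ?_
      intro M' B' φ' hI' hP'
      obtain ⟨Y', φ'', hI'', hP''⟩ := HS X emb hSz hc hjX hI'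
      refine HT X emb G ν E zm D c j Y' φ'' M' B' hXm hXR hSz hc hjR hI'' ?_
      intro M3 B3 φ3 hI3 hP3
      refine ih (j + 1) (by omega) Y' φ3 M3 B3 hI3 ?_
      have h1 : KE * c * err ν E zm D = KE * e := by rw [he]; ring
      have h2 : KT * c * err ν E zm D = KT * e := by rw [he]; ring
      rw [h1] at hP'
      rw [← he] at hP''
      rw [h2] at hP3
      have h3 : (K0 + ((j + 1 : ℕ) : ℝ) * (KE + 1 + KT)) * e =
          (K0 + j * (KE + 1 + KT)) * e + KE * e + e + KT * e := by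
        push_cast
        ring
      linarith
  refine H0 X emb G ν E zm D c hXm hXR hSz hc ?_
  intro M B φ hI hP
  refine key R 0 (by omega) (fun _ => ∅) φ M B hI ?_
  have h1 := X.h87_PP hl
  rw [← hcdef] at h1
  have h2 : K0 * c * err ν E zm D = K0 * e := by rw [he]; ring
  rw [h2] at hP
  have h3 : (K0 + ((0 : ℕ) : ℝ) * (KE + 1 + KT)) * e = K0 * e := by
    push_cast
    ring
  rw [h3]
  linarith

end Setup

end Pool.Agent.Helper75.CG
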